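import Pool.Agent.Helper34.SQ.GoalsT

/-!
Project SQ (MP_bb32d1_al), packet TRF.
-/

set_option autoImplicit false

namespace Pool.Agent.Helper85.SQ

open Matrix Pool.Agent.Helper19.SQ Pool.Agent.Helper34.SQ

theorem trf_gen {A : Type} [Ring A] [Algebra ℂ A] {ι : Type} [Fintype ι] [DecidableEq ι] {l : ℕ}
    (C : Core A ι l) (ζ : ℂ) (m m' : ZMod l → ℤ) (τ : A →ₗ[ℂ] ℂ) (hτ : IsTrz C ζ m τ)
    (f : A →ₐ[ℂ] Matrix ι ι A) (hf : ∀ a i, f (C.φ a) i i = C.φ (f a i i)) :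
    IsTrz C ζ m' (τ ∘ₗ Matrix.traceLinearMap ι ℂ A ∘ₗ f.toLinearMap ∘ₗ
      LinearMap.mulRight ℂ (C.e m')) := by
  have hv : ∀ x, (τ ∘ₗ Matrix.traceLinearMap ι ℂ A ∘ₗ f.toLinearMap ∘ₗ
      LinearMap.mulRight ℂ (C.e m')) x = τ (Matrix.trace (f (x * C.e m'))) := fun x => rfl
  refine ⟨?_, ?_, ?_⟩
  · intro x y
    rw [hv, hv]
    have h1 : ∀ x y : A, x * y * C.e m' = (x * C.e m') * (y * C.e m') := by
      intro x y
      calc x * y * C.e m' = x * y * (C.e m' * C.e m') := by rw [C.e_idem]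
        _ = x * (y * C.e m') * C.e m' := by simp only [mul_assoc]
        _ = x * (C.e m' * y) * C.e m' := by rw [C.e_cen]
        _ = (x * C.e m') * (y * C.e m') := by simp only [mul_assoc]
    rw [h1 x y, h1 y x, map_mul f (x * C.e m') (y * C.e m'), map_mul f (y * C.e m') (x * C.e m')]
    exact trace_comm_of_tr (κ := ι) (κ' := ι) hτ.tr _ _
  · intro x
    rw [hv, hv]
    have h1 : C.φ x * C.e m' = C.φ (x * C.e m') := by rw [map_mul, C.φe]
    rw [h1]
    simp only [Matrix.trace, Matrix.diag_apply, map_sum]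
    rw [Finset.mul_sum]
    refine Finset.sum_congr rfl fun i _ => ?_
    rw [hf, hτ.eq]
  · intro x
    rw [hv, hv, mul_assoc, C.e_idem]

theorem t_trf : S_TRF := by
  intro A _ _ ι _ _ l C ζ c m τ hτ
  constructor
  · refine trf_gen C ζ m _ τ hτ C.δ ?_
    intro a i
    rw [C.φδ, mul_inv_cancel₀ (Units.ne_zero _), one_smul]
  · refine trf_gen C ζ m _ τ hτ C.ε ?_
    intro a i
    rw [C.φε, inv_mul_cancel₀ (Units.ne_zero _), one_smul]

end Pool.Agent.Helper85.SQ
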