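import Pool.Agent.Helper19.SQ.GoalsQ2

/-!
Project SQ (MP_bb32d1_al), packet TO (helper85): the torus automorphisms and `delta`, `eps`, `X`,
`S`, `T`, `u`, `v`.
-/

namespace Pool.Agent.Helper85.SQ

open Pool.Agent.Helper19.SQ

noncomputable section

section Gen

variable {N l : ℕ} {q : ℂ}

/-- an algebra map into matrices is compatible with the torus if it is so on the generators. -/
theorem tor_ind (hl : l ≠ 0) (s : ℕ → ℂˣ) (H : A N l q →ₐ[ℂ] Mat N (A N l q))
    (w : Fin (N + 1) → ℂ) (hw : ∀ i, w i ≠ 0)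
    (hE : ∀ k i j, H (tor N l q hl s (gE N l q k)) i j
      = (w i * (w j)⁻¹) • tor N l q hl s (H (gE N l q k) i j))
    (hF : ∀ k i j, H (tor N l q hl s (gF N l q k)) i j
      = (w i * (w j)⁻¹) • tor N l q hl s (H (gF N l q k) i j))
    (hK : ∀ k i j, H (tor N l q hl s (gK N l q k)) i j
      = (w i * (w j)⁻¹) • tor N l q hl s (H (gK N l q k) i j)) (a : A N l q) :
    ∀ i j, H (tor N l q hl s a) i j = (w i * (w j)⁻¹) • tor N l q hl s (H a i j) := by
  refine A_induction (P := fun a => ∀ i j, H (tor N l q hl s a) i j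
    = (w i * (w j)⁻¹) • tor N l q hl s (H a i j)) ?_ hE hF hK ?_ ?_ a
  · intro c i j
    rw [AlgHom.commutes, AlgHom.commutes, Matrix.algebraMap_matrix_apply]
    by_cases h : i = j
    · subst h
      rw [if_pos rfl, AlgHom.commutes, mul_inv_cancel₀ (hw i), one_smul]
    · rw [if_neg h, map_zero, smul_zero]
  · intro a b ha hb i j
    rw [map_add, map_add, map_add, Matrix.add_apply, Matrix.add_apply, ha, hb, map_add, smul_add]
  · intro a b ha hb i j
    rw [map_mul, map_mul, map_mul, Matrix.mul_apply, Matrix.mul_apply, map_sum, Finset.smul_sum]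
    refine Finset.sum_congr rfl fun m _ => ?_
    rw [ha, hb, map_mul, smul_mul_smul_comm]
    congr 1
    have := hw m
    field_simp

theorem rvoA_scale (B : Type*) [Ring B] [Algebra ℂ B] (q : ℂ) (s : ℕ → ℂˣ) (E : ℕ → B)
    (d i : ℕ) : rvoA q (fun k => ((s k : ℂ) * (s (k + 1) : ℂ)⁻¹) • E k) d i
      = ((s i : ℂ) * (s (i + d + 1) : ℂ)⁻¹) • rvoA q E d i := by
  induction d generalizing i with
  | zero => simp [rvoA]
  | succ d ih =>
    simp only [rvoA, ih]
    have h1 : (s (i + 1) : ℂ) ≠ 0 := (s (i + 1)).ne_zero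
    have e : i + 1 + d + 1 = i + (d + 1) + 1 := by ring
    rw [e]
    generalize (s (i + (d + 1) + 1) : ℂ)⁻¹ = w
    generalize rvoA q E d (i + 1) = R
    have k1 : (s i : ℂ) * (s (i + 1) : ℂ)⁻¹ * ((s (i + 1) : ℂ) * w) = (s i : ℂ) * w := by
      field_simp
    have k2 : (s (i + 1) : ℂ) * w * ((s i : ℂ) * (s (i + 1) : ℂ)⁻¹) = (s i : ℂ) * w := by
      field_simp
    rw [smul_mul_smul_comm, smul_mul_smul_comm, k1, k2, smul_sub, smul_comm q⁻¹]

theorem tor_rvE (hl : l ≠ 0) (s : ℕ → ℂˣ) (i j : ℕ) (hij : i < j) :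
    tor N l q hl s (rv q (gE N l q) i j) = ((s i : ℂ) * (s j : ℂ)⁻¹) • rv q (gE N l q) i j := by
  rw [← rv_map]
  have : (fun k => tor N l q hl s (gE N l q k))
      = fun k => ((s k : ℂ) * (s (k + 1) : ℂ)⁻¹) • gE N l q k := funext fun k => tor_E hl s k
  rw [this]
  have e : i + (j - i - 1) + 1 = j := by omega
  have := rvA_scale q s (gE N l q) (j - i - 1) i
  rw [e] at this
  exact this

theorem tor_rvoF (hl : l ≠ 0) (s : ℕ → ℂˣ) (i j : ℕ) (hij : i < j) :
    tor N l q hl s (rvo q (gF N l q) i j)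
      = ((s i : ℂ)⁻¹ * (s j : ℂ)) • rvo q (gF N l q) i j := by
  rw [← rvo_map]
  have : (fun k => tor N l q hl s (gF N l q k))
      = fun k => (((s⁻¹) k : ℂˣ) * (((s⁻¹) (k + 1) : ℂˣ) : ℂ)⁻¹ : ℂ) • gF N l q k := by
    funext k
    rw [tor_F]
    simp
  rw [this]
  have e : i + (j - i - 1) + 1 = j := by omega
  have := rvoA_scale (A N l q) q s⁻¹ (gF N l q) (j - i - 1) i
  rw [e] at this
  refine this.trans ?_
  simp [rvo]

theorem tor_L (hl : l ≠ 0) (s : ℕ → ℂˣ) (a b : ℕ) :
    tor N l q hl s (Lent q (gE N l q) (gK N l q) a b)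
      = ((s a : ℂ)⁻¹ * (s b : ℂ)) • Lent q (gE N l q) (gK N l q) a b := by
  unfold Lent
  by_cases h : a = b
  · subst h
    rw [if_pos rfl, tor_K, inv_mul_cancel₀ (s a).ne_zero, one_smul]
  · rw [if_neg h]
    by_cases h2 : b < a
    · rw [if_pos h2, map_smul, map_mul, tor_rvE hl s b a h2, tor_K, smul_mul_assoc, smul_comm,
        mul_comm (s b : ℂ)]
    · rw [if_neg h2, map_zero, smul_zero]

theorem tor_Y (hl : l ≠ 0) (s : ℕ → ℂˣ) (a b : ℕ) :
    tor N l q hl s (Yent q (gF N l q) (gK N l q) a b)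
      = ((s a : ℂ)⁻¹ * (s b : ℂ)) • Yent q (gF N l q) (gK N l q) a b := by
  unfold Yent
  by_cases h : a = b
  · subst h
    rw [if_pos rfl, tor_K, inv_mul_cancel₀ (s a).ne_zero, one_smul]
  · rw [if_neg h]
    by_cases h2 : a < b
    · rw [if_pos h2, map_smul, map_mul, tor_rvoF hl s a b h2, tor_K, mul_smul_comm, smul_comm]
    · rw [if_neg h2, map_zero, smul_zero]

theorem tor_X (hl : l ≠ 0) (s : ℕ → ℂˣ) (i j : Fin (N + 1)) :
    tor N l q hl s (Xm N l q i j) = ((s i : ℂ)⁻¹ * (s j : ℂ)) • Xm N l q i j := by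
  rw [Xm, Matrix.mul_apply, map_sum, Finset.smul_sum]
  refine Finset.sum_congr rfl fun m _ => ?_
  rw [map_mul, Ymat, Lmat, Matrix.of_apply, Matrix.of_apply, tor_Y, tor_L, smul_mul_smul_comm]
  congr 1
  have := (s m).ne_zero
  field_simp

end Gen

theorem sTO1 : S_TO1 := by
  intro N l q hl hP D s
  refine ⟨?_, ?_, ?_⟩
  · intro a
    refine tor_ind hl s D.dl (fun i => (s i : ℂ)) (fun i => (s i).ne_zero) ?_ ?_ ?_ a
    · intro k i j
      rw [tor_E, map_smul, Matrix.smul_apply, D.dl_E, dE, Matrix.of_apply, map_add]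
      have h0 := (s i).ne_zero
      by_cases h : i = j
      · subst h
        rw [if_pos rfl, map_smul, tor_E, if_neg (by omega), map_zero, add_zero, add_zero,
          mul_inv_cancel₀ h0, one_smul, smul_comm]
      · rw [if_neg h, map_zero, zero_add, zero_add]
        by_cases h2 : (i : ℕ) = k ∧ (j : ℕ) = k + 1
        · rw [if_pos h2, map_one, h2.1, h2.2]
        · rw [if_neg h2, map_zero, smul_zero, smul_zero]
    · intro k i j
      rw [tor_F, map_smul, Matrix.smul_apply, D.dl_F, dF, Matrix.of_apply, map_add]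
      have h0 := (s i).ne_zero
      by_cases h : i = j
      · subst h
        rw [if_pos rfl, tor_F, if_neg (by omega), map_zero, add_zero, add_zero,
          mul_inv_cancel₀ h0, one_smul]
      · rw [if_neg h, map_zero, zero_add, zero_add]
        by_cases h2 : (i : ℕ) = k + 1 ∧ (j : ℕ) = k
        · rw [if_pos h2, map_mul, ki, map_pow, tor_K, tor_K, h2.1, h2.2, mul_comm (s k : ℂ)⁻¹]
        · rw [if_neg h2, map_zero, smul_zero, smul_zero]
    · intro k i j
      rw [tor_K, D.dl_K, dK, Matrix.of_apply]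
      have h0 := (s i).ne_zero
      by_cases h : i = j
      · subst h
        rw [if_pos rfl, map_smul, tor_K, mul_inv_cancel₀ h0, one_smul]
      · rw [if_neg h, map_zero, smul_zero]
  · intro a i j
    have key := tor_ind hl s D.ep (fun i => (s i : ℂ)⁻¹) (fun i => inv_ne_zero (s i).ne_zero)
      ?_ ?_ ?_ a i j
    · rw [key, inv_inv]
    · intro k i j
      rw [tor_E, map_smul, Matrix.smul_apply, D.ep_E, eE, Matrix.of_apply, map_add, inv_inv]
      have h0 := (s i).ne_zero
      by_cases h : i = j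
      · subst h
        rw [if_pos rfl, map_smul, tor_E, if_neg (by omega), map_zero, add_zero, add_zero,
          inv_mul_cancel₀ h0, one_smul, smul_comm]
      · rw [if_neg h, map_zero, zero_add, zero_add]
        by_cases h2 : (i : ℕ) = k + 1 ∧ (j : ℕ) = k
        · rw [if_pos h2, map_smul, map_one, h2.1, h2.2, mul_comm (s k : ℂ)]
        · rw [if_neg h2, map_zero, smul_zero, smul_zero]
    · intro k i j
      rw [tor_F, map_smul, Matrix.smul_apply, D.ep_F, eF, Matrix.of_apply, map_add, inv_inv]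
      have h0 := (s i).ne_zero
      by_cases h : i = j
      · subst h
        rw [if_pos rfl, tor_F, if_neg (by omega), map_zero, add_zero, add_zero,
          inv_mul_cancel₀ h0, one_smul]
      · rw [if_neg h, map_zero, zero_add, zero_add]
        by_cases h2 : (i : ℕ) = k ∧ (j : ℕ) = k + 1
        · rw [if_pos h2, map_smul, map_mul, ki, map_pow, tor_K, tor_K, h2.1, h2.2]
        · rw [if_neg h2, map_zero, smul_zero, smul_zero]
    · intro k i j
      rw [tor_K, D.ep_K, eK, Matrix.of_apply, inv_inv]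
      have h0 := (s i).ne_zero
      by_cases h : i = j
      · subst h
        rw [if_pos rfl, map_smul, tor_K, inv_mul_cancel₀ h0, one_smul]
      · rw [if_neg h, map_zero, smul_zero]
  · intro i j
    exact tor_X hl s i j

theorem wt_S (N : ℕ) (q : ℂ) (s : ℕ → ℂˣ) (x y : Fin (N + 1) × Fin (N + 1))
    (h : Smat N q x y ≠ 0) : (s x.1 : ℂ) * (s y.1 : ℂ) = (s x.2 : ℂ) * (s y.2 : ℂ) := by
  rw [Smat, Matrix.of_apply] at h
  by_cases h1 : y.1 = y.2
  · rw [if_pos h1] at h
    by_cases h2 : x.1 = x.2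
    · rw [h1, h2]
    · rw [if_neg h2] at h
      exact absurd rfl h
  · rw [if_neg h1] at h
    by_cases h2 : x.1 = y.2 ∧ x.2 = y.1
    · rw [h2.1, h2.2, mul_comm]
    · rw [if_neg h2] at h
      exact absurd rfl h

theorem wt_T (N : ℕ) (q : ℂ) (s : ℕ → ℂˣ) (x y : Fin (N + 1) × Fin (N + 1))
    (h : Tmat N q x y ≠ 0) : (s x.1 : ℂ) * (s y.1 : ℂ) = (s x.2 : ℂ) * (s y.2 : ℂ) := by
  rw [Tmat, Matrix.of_apply] at h
  by_cases h1 : y.1 = y.2
  · rw [if_pos h1] at h
    by_cases h2 : x.1 = x.2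
    · rw [h1, h2]
    · rw [if_neg h2] at h
      exact absurd rfl h
  · rw [if_neg h1] at h
    by_cases h2 : x.1 = y.2 ∧ x.2 = y.1
    · rw [h2.1, h2.2, mul_comm]
    · rw [if_neg h2] at h
      exact absurd rfl h

theorem sTO2 : S_TO2 := by
  intro N l q hl hP s
  refine ⟨wt_S N q s, wt_T N q s, ?_, ?_⟩
  · intro x
    unfold uvec
    by_cases h : x.1 = x.2
    · rw [if_pos h, map_smul, map_one, h, inv_mul_cancel₀ (s x.2).ne_zero, one_smul]
    · rw [if_neg h, map_zero, smul_zero]
  · intro x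
    rw [vvec, Matrix.vecMul, dotProduct, map_sum, Finset.smul_sum]
    refine Finset.sum_congr rfl fun y _ => ?_
    rw [Matrix.mul_apply, map_mul, map_sum, ← mul_smul_comm, Finset.smul_sum]
    unfold capv
    by_cases h : y.1 = y.2
    · rw [if_pos h, map_smul, map_one]
      congr 1
      refine Finset.sum_congr rfl fun z _ => ?_
      rw [map_mul, X1, Matrix.of_apply, sc, Matrix.map_apply, AlgHom.commutes]
      by_cases h2 : y.1 = z.1
      · rw [if_pos h2, tor_X, ← h, h2, smul_mul_assoc]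
        by_cases h3 : Tmat N q z x = 0
        · rw [h3, map_zero, mul_zero, smul_zero, smul_zero]
        · have e := wt_T N q s z x h3
          congr 1
          have n1 := (s z.1).ne_zero
          have n2 := (s x.2).ne_zero
          field_simp
          linear_combination -e
      · rw [if_neg h2, map_zero, zero_mul, smul_zero]
    · rw [if_neg h, map_zero, zero_mul, zero_mul]

end

end Pool.Agent.Helper85.SQ
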