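import Pool.Agent.Helper19.SQ.GoalsQ

/-!
Project SQ (MP_bb32d1_al), packet VR (helper85): the representations `V`, `V*` of `u_q(gl_n)`.
-/

namespace Pool.Agent.Helper85.SQ

open Pool.Agent.Helper19.SQ

noncomputable section

/-- a matrix with at most one nonzero entry. -/
def sg (N p r : ℕ) (c : ℂ) : Mat N ℂ :=
  Matrix.of fun a b => if (a : ℕ) = p ∧ (b : ℕ) = r then c else 0

theorem sg_apply (N p r : ℕ) (c : ℂ) (a b : Fin (N + 1)) :
    sg N p r c a b = if (a : ℕ) = p ∧ (b : ℕ) = r then c else 0 := rfl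

theorem sg_zero (N p r : ℕ) : sg N p r 0 = 0 := by
  ext a b
  simp [sg_apply]

theorem sg_left_out (N p r : ℕ) (c : ℂ) (h : N < p) : sg N p r c = 0 := by
  ext a b
  have := a.2
  rw [sg_apply, if_neg (by omega)]
  rfl

theorem sg_right_out (N p r : ℕ) (c : ℂ) (h : N < r) : sg N p r c = 0 := by
  ext a b
  have := b.2
  rw [sg_apply, if_neg (by omega)]
  rfl

theorem sg_smul (N p r : ℕ) (c d : ℂ) : d • sg N p r c = sg N p r (d * c) := by
  ext a b
  simp [sg_apply, Matrix.smul_apply]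

theorem sg_sub (N p r : ℕ) (c d : ℂ) : sg N p r c - sg N p r d = sg N p r (c - d) := by
  ext a b
  simp only [sg_apply, Matrix.sub_apply]
  split <;> simp

theorem sg_mul_eq (N p r s : ℕ) (c d : ℂ) (h : r ≤ N) :
    sg N p r c * sg N r s d = sg N p s (c * d) := by
  ext a b
  rw [Matrix.mul_apply, Finset.sum_eq_single (⟨r, by omega⟩ : Fin (N + 1))]
  · simp only [sg_apply]
    by_cases h1 : (a : ℕ) = p <;> by_cases h2 : (b : ℕ) = s <;> simp [h1, h2]
  · intro x _ hx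
    have : (x : ℕ) ≠ r := fun h' => hx (Fin.ext h')
    simp [sg_apply, this]
  · intro h'
    exact absurd (Finset.mem_univ _) h'

theorem sg_mul_ne (N p r r' s : ℕ) (c d : ℂ) (h : r ≠ r') :
    sg N p r c * sg N r' s d = 0 := by
  ext a b
  rw [Matrix.mul_apply]
  refine Finset.sum_eq_zero fun x _ => ?_
  simp only [sg_apply]
  by_cases h1 : (x : ℕ) = r
  · have : (x : ℕ) ≠ r' := by omega
    simp [this]
  · simp [h1]

theorem sg_mul_out (N p r r' s : ℕ) (c d : ℂ) (h : N < r) :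
    sg N p r c * sg N r' s d = 0 := by
  rw [sg_right_out N p r c h, zero_mul]

theorem vE_eq (N k : ℕ) : vE N k = sg N k (k + 1) 1 := rfl
theorem vF_eq (N k : ℕ) : vF N k = sg N (k + 1) k 1 := rfl
theorem wE_eq (N : ℕ) (q : ℂ) (k : ℕ) : wE N q k = sg N (k + 1) k (-q) := rfl
theorem wF_eq (N : ℕ) (q : ℂ) (k : ℕ) : wF N q k = sg N k (k + 1) (-q⁻¹) := rfl

/-- product of two single entry matrices which go up. -/
theorem up_mul (N p r s : ℕ) (c d : ℂ) (h1 : p < r) (h2 : r < s) :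
    sg N p r c * sg N r s d = sg N p s (c * d) := by
  by_cases hs : s ≤ N
  · exact sg_mul_eq N p r s c d (by omega)
  · rw [sg_right_out N r s _ (by omega), sg_right_out N p s _ (by omega), mul_zero]

theorem dn_mul (N p r s : ℕ) (c d : ℂ) (h1 : r < p) (h2 : s < r) :
    sg N p r c * sg N r s d = sg N p s (c * d) := by
  by_cases hs : p ≤ N
  · exact sg_mul_eq N p r s c d (by omega)
  · rw [sg_left_out N p r _ (by omega), sg_left_out N p s _ (by omega), zero_mul]

theorem rvA_vE (N : ℕ) (q : ℂ) (d i : ℕ) : rvA q (vE N) d i = sg N i (i + d + 1) 1 := by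
  induction d generalizing i with
  | zero => rfl
  | succ d ih =>
    rw [rvA, ih, vE_eq, up_mul N i (i + 1) (i + 1 + d + 1) 1 1 (by omega) (by omega),
      sg_mul_ne N (i + 1) (i + 1 + d + 1) i (i + 1) 1 1 (by omega), smul_zero, sub_zero, mul_one]
    congr 1
    omega

theorem rvA_vF (N : ℕ) (q : ℂ) (d i : ℕ) :
    rvA q (vF N) d i = sg N (i + d + 1) i ((-q⁻¹) ^ d) := by
  induction d generalizing i with
  | zero => rfl
  | succ d ih =>
    rw [rvA, ih, vF_eq, sg_mul_ne N (i + 1) i (i + 1 + d + 1) (i + 1) 1 _ (by omega),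
      dn_mul N (i + 1 + d + 1) (i + 1) i _ 1 (by omega) (by omega), sg_smul, zero_sub]
    have : -sg N (i + 1 + d + 1) i (q⁻¹ * ((-q⁻¹) ^ d * 1))
        = (-1 : ℂ) • sg N (i + 1 + d + 1) i (q⁻¹ * ((-q⁻¹) ^ d * 1)) := by simp
    rw [this, sg_smul]
    have e : i + 1 + d + 1 = i + (d + 1) + 1 := by omega
    rw [e]
    congr 1
    rw [pow_succ]
    ring

theorem rvoA_vF (N : ℕ) (q : ℂ) (d i : ℕ) :
    rvoA q (vF N) d i = sg N (i + d + 1) i 1 := by
  induction d generalizing i with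
  | zero => rfl
  | succ d ih =>
    rw [rvoA, ih, vF_eq, sg_mul_ne N (i + 1) i (i + 1 + d + 1) (i + 1) 1 _ (by omega),
      dn_mul N (i + 1 + d + 1) (i + 1) i _ 1 (by omega) (by omega), smul_zero, sub_zero, mul_one]
    congr 1
    omega

theorem rvA_wE (N : ℕ) (q : ℂ) (hq : q ≠ 0) (d i : ℕ) :
    rvA q (wE N q) d i = sg N (i + d + 1) i (-q) := by
  induction d generalizing i with
  | zero => rfl
  | succ d ih =>
    rw [rvA, ih, wE_eq, sg_mul_ne N (i + 1) i (i + 1 + d + 1) (i + 1) _ _ (by omega),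
      dn_mul N (i + 1 + d + 1) (i + 1) i _ _ (by omega) (by omega), sg_smul, zero_sub]
    have : -sg N (i + 1 + d + 1) i (q⁻¹ * (-q * -q))
        = (-1 : ℂ) • sg N (i + 1 + d + 1) i (q⁻¹ * (-q * -q)) := by simp
    rw [this, sg_smul]
    have e : i + 1 + d + 1 = i + (d + 1) + 1 := by omega
    rw [e]
    congr 1
    field_simp

theorem rvA_wF (N : ℕ) (q : ℂ) (d i : ℕ) :
    rvA q (wF N q) d i = sg N i (i + d + 1) ((-q⁻¹) ^ (d + 1)) := by
  induction d generalizing i with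
  | zero =>
    rw [rvA, wF_eq]
    simp
  | succ d ih =>
    rw [rvA, ih, wF_eq, up_mul N i (i + 1) (i + 1 + d + 1) _ _ (by omega) (by omega),
      sg_mul_ne N (i + 1) (i + 1 + d + 1) i (i + 1) _ _ (by omega), smul_zero, sub_zero]
    have e : i + 1 + d + 1 = i + (d + 1) + 1 := by omega
    rw [e]
    congr 1
    rw [pow_succ (-q⁻¹) (d + 1)]
    ring

theorem rvoA_wF (N : ℕ) (q : ℂ) (d i : ℕ) :
    rvoA q (wF N q) d i = sg N i (i + d + 1) (-(q⁻¹ ^ (2 * d + 1))) := by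
  induction d generalizing i with
  | zero =>
    rw [rvoA, wF_eq]
    simp
  | succ d ih =>
    rw [rvoA, ih, wF_eq, up_mul N i (i + 1) (i + 1 + d + 1) _ _ (by omega) (by omega),
      sg_mul_ne N (i + 1) (i + 1 + d + 1) i (i + 1) _ _ (by omega), sg_smul, zero_sub]
    have : -sg N i (i + 1 + d + 1) (q⁻¹ * (-q⁻¹ * -q⁻¹ ^ (2 * d + 1)))
        = (-1 : ℂ) • sg N i (i + 1 + d + 1) (q⁻¹ * (-q⁻¹ * -q⁻¹ ^ (2 * d + 1))) := by simp
    rw [this, sg_smul]
    have e : i + 1 + d + 1 = i + (d + 1) + 1 := by omega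
    rw [e]
    congr 1
    have e2 : 2 * (d + 1) + 1 = (2 * d + 1) + 2 := by omega
    rw [e2, pow_add q⁻¹ (2 * d + 1) 2]
    ring

theorem of_le (N i j : ℕ) (c : ℂ) :
    sg N i j c = Matrix.of fun a b : Fin (N + 1) =>
      if (a : ℕ) = i ∧ (b : ℕ) = j ∧ j ≤ N then c else 0 := by
  ext a b
  have := b.2
  rw [sg_apply, Matrix.of_apply]
  by_cases h : (a : ℕ) = i ∧ (b : ℕ) = j
  · rw [if_pos h, if_pos ⟨h.1, h.2, by omega⟩]
  · rw [if_neg h, if_neg (by tauto)]

theorem of_le' (N i j : ℕ) (c : ℂ) :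
    sg N j i c = Matrix.of fun a b : Fin (N + 1) =>
      if (a : ℕ) = j ∧ (b : ℕ) = i ∧ j ≤ N then c else 0 := by
  ext a b
  have := a.2
  rw [sg_apply, Matrix.of_apply]
  by_cases h : (a : ℕ) = j ∧ (b : ℕ) = i
  · rw [if_pos h, if_pos ⟨h.1, h.2, by omega⟩]
  · rw [if_neg h, if_neg (by tauto)]

theorem sVRV : S_VRV := by
  intro N q hq i j hij
  obtain ⟨d, rfl⟩ : ∃ d, j = i + d + 1 := ⟨j - i - 1, by omega⟩
  have e1 : i + d + 1 - i - 1 = d := by omega
  have e2 : i + d + 1 - i = d + 1 := by omega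
  have e3 : 2 * (d + 1) - 1 = 2 * d + 1 := by omega
  refine ⟨?_, ?_, ?_, ?_, ?_, ?_⟩
  · rw [rv, e1, rvA_vE, of_le]
  · rw [rv, e1, rvA_vF, of_le']
  · rw [rvo, e1, rvoA_vF, of_le']
  · rw [rv, e1, rvA_wE N q hq, of_le']
  · rw [rv, e1, rvA_wF, of_le, e2]
  · rw [rvo, e1, rvoA_wF, of_le, e2, e3]

/-! ### the relations -/

theorem diag_mul_sg (N p r : ℕ) (c : ℂ) (f : ℕ → ℂ) :
    (Matrix.diagonal fun a : Fin (N + 1) => f a) * sg N p r c = sg N p r (f p * c) := by
  ext a b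
  rw [Matrix.diagonal_mul, sg_apply, sg_apply]
  by_cases h : (a : ℕ) = p ∧ (b : ℕ) = r
  · rw [if_pos h, if_pos h, h.1]
  · rw [if_neg h, if_neg h, mul_zero]

theorem sg_mul_diag (N p r : ℕ) (c : ℂ) (f : ℕ → ℂ) :
    sg N p r c * (Matrix.diagonal fun a : Fin (N + 1) => f a) = sg N p r (c * f r) := by
  ext a b
  rw [Matrix.mul_diagonal, sg_apply, sg_apply]
  by_cases h : (a : ℕ) = p ∧ (b : ℕ) = r
  · rw [if_pos h, if_pos h, h.2]
  · rw [if_neg h, if_neg h, zero_mul]

theorem sg_pow_zero (N p r : ℕ) (c : ℂ) (l : ℕ) (hl : 2 ≤ l) (h : p ≠ r) : sg N p r c ^ l = 0 := by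
  obtain ⟨k, rfl⟩ : ∃ k, l = 2 + k := ⟨l - 2, by omega⟩
  rw [pow_add, pow_two, sg_mul_ne N p r p r c c (Ne.symm h), zero_mul]

/-- single entry families going up satisfy the Serre relations. -/
theorem serre_up (N : ℕ) (q c : ℂ) : SerreRel q (fun k => sg N k (k + 1) c) where
  far i j h := by
    rw [sg_mul_ne N _ _ _ _ _ _ (by omega), sg_mul_ne N _ _ _ _ _ _ (by omega)]
  s1 i := by
    rw [sg_pow_zero N _ _ _ 2 le_rfl (by omega), mul_assoc,
      sg_mul_ne N (i + 1) (i + 1 + 1) i (i + 1) _ _ (by omega)]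
    simp
  s2 i := by
    rw [sg_pow_zero N _ _ _ 2 le_rfl (by omega),
      sg_mul_ne N (i + 1) (i + 1 + 1) i (i + 1) _ _ (by omega)]
    simp

theorem serre_dn (N : ℕ) (q c : ℂ) : SerreRel q (fun k => sg N (k + 1) k c) where
  far i j h := by
    rw [sg_mul_ne N _ _ _ _ _ _ (by omega), sg_mul_ne N _ _ _ _ _ _ (by omega)]
  s1 i := by
    rw [sg_pow_zero N _ _ _ 2 le_rfl (by omega),
      sg_mul_ne N (i + 1) i (i + 1 + 1) (i + 1) _ _ (by omega)]
    simp
  s2 i := by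
    rw [sg_pow_zero N _ _ _ 2 le_rfl (by omega), mul_assoc,
      sg_mul_ne N (i + 1) i (i + 1 + 1) (i + 1) _ _ (by omega)]
    simp

/-- diagonal values. -/
def kv (q : ℂ) (j a : ℕ) : ℂ := if a = j then q else 1

theorem vK_eq (N : ℕ) (q : ℂ) (j : ℕ) :
    vK N q j = Matrix.diagonal fun a : Fin (N + 1) => kv q j a := rfl
theorem wK_eq (N : ℕ) (q : ℂ) (j : ℕ) :
    wK N q j = Matrix.diagonal fun a : Fin (N + 1) => kv q⁻¹ j a := rfl

theorem kv_up (q : ℂ) (hq : q ≠ 0) (j i : ℕ) : kv q j i = q ^ pr j i * kv q j (i + 1) := by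
  unfold kv pr
  by_cases h1 : j = i
  · subst h1
    simp
  · by_cases h2 : j = i + 1
    · subst h2
      simp [hq]
    · rw [if_neg (Ne.symm h1), if_neg h1, if_neg h2, if_neg (Ne.symm h2)]
      simp

theorem kv_dn (q : ℂ) (hq : q ≠ 0) (j i : ℕ) : kv q j (i + 1) = q ^ (-pr j i) * kv q j i := by
  rw [kv_up q hq j i, ← mul_assoc, ← zpow_add₀ hq]
  simp

theorem sg_diag (N : ℕ) (p : ℕ) (c : ℂ) :
    sg N p p c = Matrix.diagonal fun a : Fin (N + 1) => if (a : ℕ) = p then c else 0 := by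
  ext a b
  rw [sg_apply, Matrix.diagonal_apply]
  by_cases h : a = b
  · subst h
    simp
  · have : ¬ ((a : ℕ) = p ∧ (b : ℕ) = p) := fun h' => h (Fin.ext (h'.1.trans h'.2.symm))
    rw [if_neg this, if_neg h]

theorem diag_EF (N l i : ℕ) (q : ℂ) (hq : q ≠ 0) (hl : q ^ (l - 1) = q⁻¹) (hne : q - q⁻¹ ≠ 0)
    (h1 : (1 : ℕ) ≤ l) :
    sg N i i 1 - sg N (i + 1) (i + 1) 1 = (q - q⁻¹)⁻¹ •
      ((Matrix.diagonal fun a : Fin (N + 1) => kv q i a) *
        (Matrix.diagonal fun a : Fin (N + 1) => kv q (i + 1) a) ^ (l - 1) -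
      (Matrix.diagonal fun a : Fin (N + 1) => kv q i a) ^ (l - 1) *
        (Matrix.diagonal fun a : Fin (N + 1) => kv q (i + 1) a)) := by
  rw [sg_diag, sg_diag, Matrix.diagonal_pow, Matrix.diagonal_pow, Matrix.diagonal_mul_diagonal,
    Matrix.diagonal_mul_diagonal, Matrix.diagonal_sub, Matrix.diagonal_sub,
    ← Matrix.diagonal_smul]
  congr 1
  funext a
  simp only [Pi.smul_apply, Pi.pow_apply, smul_eq_mul, kv]
  have hA : (q - q⁻¹)⁻¹ * (q - q⁻¹) = 1 := inv_mul_cancel₀ hne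
  by_cases h2 : (a : ℕ) = i
  · have h3 : (a : ℕ) ≠ i + 1 := by omega
    simp only [h2, if_true]
    rw [if_neg (by omega), if_neg (by omega), one_pow, hl, mul_one, mul_one, hA, sub_zero]
  · by_cases h3 : (a : ℕ) = i + 1
    · simp only [h3, if_true]
      rw [if_neg (by omega), if_neg (by omega), one_pow, hl, one_mul, one_mul]
      linear_combination hA
    · rw [if_neg h2, if_neg h3, if_neg h2, if_neg h3]
      simp

theorem kv_pow (q : ℂ) (l : ℕ) (h : q ^ l = 1) (j a : ℕ) : kv q j a ^ l = 1 := by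
  unfold kv
  split
  · exact h
  · exact one_pow _

theorem diag_pow_one (N l : ℕ) (q : ℂ) (h : q ^ l = 1) (j : ℕ) :
    (Matrix.diagonal fun a : Fin (N + 1) => kv q j a) ^ l = 1 := by
  rw [Matrix.diagonal_pow, ← Matrix.diagonal_one]
  congr 1
  funext a
  exact kv_pow q l h j a

theorem diag_comm (N : ℕ) (f g : ℕ → ℂ) :
    (Matrix.diagonal fun a : Fin (N + 1) => f a) * (Matrix.diagonal fun a : Fin (N + 1) => g a) =
      (Matrix.diagonal fun a : Fin (N + 1) => g a) *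
        (Matrix.diagonal fun a : Fin (N + 1) => f a) := by
  rw [Matrix.diagonal_mul_diagonal, Matrix.diagonal_mul_diagonal]
  congr 1
  funext a
  exact mul_comm _ _

theorem diag_out (N : ℕ) (q : ℂ) (j : ℕ) (h : N < j) :
    (Matrix.diagonal fun a : Fin (N + 1) => kv q j a) = 1 := by
  rw [← Matrix.diagonal_one]
  congr 1
  funext a
  have := a.2
  unfold kv
  rw [if_neg (by omega)]

theorem kv_up' (q : ℂ) (hq : q ≠ 0) (j i : ℕ) :
    kv q⁻¹ j (i + 1) = q ^ pr j i * kv q⁻¹ j i := by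
  rw [kv_dn q⁻¹ (inv_ne_zero hq) j i, inv_zpow', neg_neg]

theorem kv_dn' (q : ℂ) (hq : q ≠ 0) (j i : ℕ) :
    kv q⁻¹ j i = q ^ (-pr j i) * kv q⁻¹ j (i + 1) := by
  rw [kv_up q⁻¹ (inv_ne_zero hq) j i, inv_zpow']

theorem par_facts {N l : ℕ} {q : ℂ} (h : Par N l q) :
    q ≠ 0 ∧ q ^ l = 1 ∧ q ^ (l - 1) = q⁻¹ ∧ q - q⁻¹ ≠ 0 := by
  have h3 := h.h3
  have h1 : q ^ l = 1 := h.prim.pow_eq_one
  have h0 : q ≠ 0 := by
    rintro rfl
    rw [zero_pow (by omega)] at h1
    exact zero_ne_one h1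
  refine ⟨h0, h1, ?_, ?_⟩
  · have e : q ^ (l - 1) * q = 1 := by
      rw [← pow_succ]
      have : l - 1 + 1 = l := by omega
      rw [this, h1]
    exact eq_inv_of_mul_eq_one_left e
  · intro hc
    have e : q = q⁻¹ := sub_eq_zero.mp hc
    have e2 : q ^ 2 = 1 := by
      rw [pow_two]
      nth_rewrite 2 [e]
      exact mul_inv_cancel₀ h0
    have := h.prim.dvd_of_pow_eq_one 2 e2
    have := Nat.le_of_dvd (by norm_num) this
    omega

theorem sVREP : S_VREP := by
  intro N l q hP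
  obtain ⟨hq, hl1, hl, hne⟩ := par_facts hP
  have h3 := hP.h3
  constructor
  · refine
      { E_out := fun i hi => ?_
        F_out := fun i hi => ?_
        K_out := fun j hj => ?_
        K_comm := fun i j => ?_
        K_pow := fun j => ?_
        KE := fun j i => ?_
        KF := fun j i => ?_
        EF := fun i hi => ?_
        EF_ne := fun i j hij => ?_
        sE := serre_up N q 1
        sF := serre_dn N q 1
        pE := fun d i => ?_
        pF := fun d i => ?_ }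
    · exact sg_right_out N i (i + 1) 1 (by omega)
    · exact sg_left_out N (i + 1) i 1 (by omega)
    · exact diag_out N q j hj
    · exact diag_comm N (kv q i) (kv q j)
    · exact diag_pow_one N l q hl1 j
    · rw [vK_eq, vE_eq, diag_mul_sg, sg_mul_diag, sg_smul, kv_up q hq j i]
      congr 1
      ring
    · rw [vK_eq, vF_eq, diag_mul_sg, sg_mul_diag, sg_smul, kv_dn q hq j i]
      congr 1
      ring
    · rw [vE_eq, vF_eq, sg_mul_eq N i (i + 1) i 1 1 (by omega),
        sg_mul_eq N (i + 1) i (i + 1) 1 1 (by omega), mul_one]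
      exact diag_EF N l i q hq hl hne (by omega)
    · rw [vE_eq, vF_eq, sg_mul_ne N i (i + 1) (j + 1) j _ _ (by omega),
        sg_mul_ne N (j + 1) j i (i + 1) _ _ (by omega)]
    · rw [rvA_vE]
      exact sg_pow_zero N _ _ _ l (by omega) (by omega)
    · rw [rvA_vF]
      exact sg_pow_zero N _ _ _ l (by omega) (by omega)
  · have hl' : q⁻¹ ^ (l - 1) = q⁻¹⁻¹ := by rw [inv_pow, hl]
    have hli : q⁻¹ ^ l = 1 := by rw [inv_pow, hl1, inv_one]
    have hne' : q⁻¹ - q⁻¹⁻¹ ≠ 0 := by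
      rw [inv_inv]
      intro hc
      exact hne (by linear_combination -hc)
    refine
      { E_out := fun i hi => ?_
        F_out := fun i hi => ?_
        K_out := fun j hj => ?_
        K_comm := fun i j => ?_
        K_pow := fun j => ?_
        KE := fun j i => ?_
        KF := fun j i => ?_
        EF := fun i hi => ?_
        EF_ne := fun i j hij => ?_
        sE := serre_dn N q (-q)
        sF := serre_up N q (-q⁻¹)
        pE := fun d i => ?_
        pF := fun d i => ?_ }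
    · exact sg_left_out N (i + 1) i _ (by omega)
    · exact sg_right_out N i (i + 1) _ (by omega)
    · exact diag_out N q⁻¹ j hj
    · exact diag_comm N (kv q⁻¹ i) (kv q⁻¹ j)
    · exact diag_pow_one N l q⁻¹ hli j
    · rw [wK_eq, wE_eq, diag_mul_sg, sg_mul_diag, sg_smul, kv_up' q hq j i]
      congr 1
      ring
    · rw [wK_eq, wF_eq, diag_mul_sg, sg_mul_diag, sg_smul, kv_dn' q hq j i]
      congr 1
      ring
    · have e1 : -q * -q⁻¹ = 1 := by field_simp
      have e2 : -q⁻¹ * -q = 1 := by field_simp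
      rw [wE_eq, wF_eq, sg_mul_eq N i (i + 1) i _ _ (by omega),
        sg_mul_eq N (i + 1) i (i + 1) _ _ (by omega), e1, e2]
      have key := diag_EF N l i q⁻¹ (inv_ne_zero hq) hl' hne' (by omega)
      have e3 : sg N (i + 1) (i + 1) 1 - sg N i i 1
          = (-1 : ℂ) • (sg N i i 1 - sg N (i + 1) (i + 1) 1) := by
        rw [neg_smul, one_smul, neg_sub]
      have e4 : (q - q⁻¹)⁻¹ = -1 * (q⁻¹ - q⁻¹⁻¹)⁻¹ := by
        rw [inv_inv, neg_one_mul, neg_inv, neg_sub]
      rw [e3, key, e4, ← smul_smul]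
      rfl
    · rw [wE_eq, wF_eq, sg_mul_ne N (i + 1) i j (j + 1) _ _ (by omega),
        sg_mul_ne N j (j + 1) (i + 1) i _ _ (by omega)]
    · rw [rvA_wE N q hq]
      exact sg_pow_zero N _ _ _ l (by omega) (by omega)
    · rw [rvA_wF]
      exact sg_pow_zero N _ _ _ l (by omega) (by omega)

end

end Pool.Agent.Helper85.SQ
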