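import Pool.Agent.Helper19.SQ.GoalsB

/-!
Project SQ (MP_bb32d1_al), packet NILC (helper85).
-/

namespace Pool.Agent.Helper85.SQ

open Pool.Agent.Helper19.SQ

theorem b_nilc (hSV : S_SV) (hFD : S_FDIM) : S_NILC := by
  intro N l _ q hP a hcen hkill
  have hfd : FiniteDimensional ℂ (A N l q) := hFD N l q hP
  have hno : IsNoetherian (A N l q) (A N l q) :=
    isNoetherian_of_tower ℂ (inferInstance : IsNoetherian ℂ (A N l q))
  let g : A N l q →ₗ[A N l q] A N l q := LinearMap.toSpanSingleton (A N l q) (A N l q) a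
  have hg : ∀ x, g x = x * a := fun x => rfl
  have hgp : ∀ (n : ℕ) x, (g ^ n) x = x * a ^ n := by
    intro n
    induction n with
    | zero => intro x; simp
    | succ n ih =>
      intro x
      rw [pow_succ', Module.End.mul_apply, ih, hg, mul_assoc, ← pow_succ]
  obtain ⟨n, hn⟩ := ((Module.End.eventually_disjoint_ker_pow_range_pow g).and
    (Filter.eventually_ge_atTop 1)).exists
  obtain ⟨hdis, hn1⟩ := hn
  refine ⟨n, ?_⟩
  by_contra hne
  let W : Submodule (A N l q) (A N l q) := LinearMap.range (g ^ n)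
  have hx : ∃ x : W, x ≠ 0 := by
    refine ⟨⟨a ^ n, ⟨1, by rw [hgp, one_mul]⟩⟩, fun h => hne ?_⟩
    exact congrArg Subtype.val h
  obtain ⟨lam, m, hm, hs⟩ := hSV N l q hP W hx
  have hs' : Sing q lam (m : A N l q) := by
    refine ⟨fun i => ?_, fun j => ?_⟩
    · have := congrArg Subtype.val (hs.1 i)
      exact this
    · have := congrArg Subtype.val (hs.2 j)
      exact this
  have h0 := hkill lam _ hs'
  have hker : (m : A N l q) ∈ LinearMap.ker (g ^ n) := by
    rw [LinearMap.mem_ker, hgp]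
    obtain ⟨k, rfl⟩ : ∃ k, n = k + 1 := ⟨n - 1, by omega⟩
    rw [pow_succ', ← mul_assoc, ← hcen, h0, zero_mul]
  have := Submodule.disjoint_def.mp hdis _ hker m.2
  exact hm (Subtype.ext this)

end Pool.Agent.Helper85.SQ
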