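import Mathlib
import Pool.Agent.Helper84.SQ.GoalsC

/-! Packet PTC of the project SQ: the slices are computed in polynomial time. -/

namespace Pool.Agent.Helper85.SQ

open Pool.Agent.Helper81.CC Pool.Agent.Bin
open Pool.Agent.Helper84.SQ
open Pool.Agent.Helper92.FR (Qn Cst dot cut cini cen)

variable {α : Type} [ToData α]

@[fun_prop] theorem PT_unitR {d i : α → ℕ} {s : α → Zn} (hd : PolyTime d) (hi : PolyTime i)
    (hs : PolyTime s) : PolyTime (fun a => unitR (d a) (i a) (s a)) := by unfold unitR; fun_prop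

@[fun_prop] theorem PT_fixR {d i : α → ℕ} {s : α → Zn} (hd : PolyTime d) (hi : PolyTime i)
    (hs : PolyTime s) : PolyTime (fun a => fixR (d a) (i a) (s a)) := by unfold fixR; fun_prop

@[fun_prop] theorem PT_grdv (K : ℕ) {k : α → ℕ} {l u : α → Zn} (hk : PolyTime k)
    (hl : PolyTime l) (hu : PolyTime u) :
    PolyTime (fun a => grdv K (k a) (l a) (u a)) := by unfold grdv; fun_prop

@[fun_prop] theorem PT_gv {G : α → List (Zn × Zn)} {x : α → List Zn} (hG : PolyTime G)
    (hx : PolyTime x) : PolyTime (fun a => gv (G a) (x a)) := by unfold gv; fun_prop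

@[fun_prop] theorem PT_bestc {G : α → List (Zn × Zn)} {l : α → List (List Zn)}
    (hG : PolyTime G) (hl : PolyTime l) : PolyTime (fun a => bestc (G a) (l a)) := by
  unfold bestc; fun_prop

theorem PT_split (hb : PtbStmt) (K : ℕ) {N d i : α → ℕ} {R : α → List Row} (hN : PolyTime N)
    (hd : PolyTime d) (hi : PolyTime i) (hR : PolyTime R) :
    PolyTime (fun a => split (N a) (d a) K (i a) (R a)) := by
  obtain ⟨-, h1, h2⟩ := hb α N d i R (fun _ => []) hN hd hi hR (by fun_prop)
  have h2' : PolyTime (fun z : α × Zn => cmax (N z.1) (d z.1) (R z.1) (i z.1)) :=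
    PolyTime.comp (g := fun a => cmax (N a) (d a) (R a) (i a)) (f := fun z : α × Zn => z.1) h2
      (by fun_prop)
  unfold split
  refine PolyTime.option_getD (PolyTime.option_bind (g := fun a l =>
    (cmax (N a) (d a) (R a) (i a)).map fun u =>
      (List.range (K + 1)).map fun k => R a ++ fixR (d a) (i a) (grdv K k l u)) h1 ?_)
    (by fun_prop)
  refine PolyTime.option_map (g := fun (z : α × Zn) u =>
    (List.range (K + 1)).map fun k => R z.1 ++ fixR (d z.1) (i z.1) (grdv K k z.2 u)) h2' ?_
  fun_prop

theorem PT_leaves (hb : PtbStmt) (K : ℕ) {N d : α → ℕ} {V : α → List ℕ} {R : α → List Row}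
    (hN : PolyTime N) (hd : PolyTime d) (hV : PolyTime V) (hR : PolyTime R) (p : ℕ) :
    PolyTime (fun a => leaves (N a) (d a) K (V a) (R a) p) := by
  induction p with
  | zero =>
    simp only [leaves]
    fun_prop
  | succ j ih =>
    simp only [leaves]
    refine PolyTime.itep (c := fun a => j < (V a).length) (by fun_prop) ?_ ih
    refine PolyTime.flatMap (f := fun a R' => split (N a) (d a) K ((V a).getD j 0) R') ih ?_
    exact PT_split hb K (α := α × List Row) (N := fun z => N z.1) (d := fun z => d z.1)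
      (i := fun z => (V z.1).getD j 0) (R := fun z => z.2) (by fun_prop) (by fun_prop)
      (by fun_prop) (by fun_prop)

/-- PTC. -/
theorem ptc (hb : PtbStmt) : PtcStmt := by
  intro p K α _ N d i V R F G hN hd hi hV hR hF hG
  refine ⟨PT_split hb K hN hd hi hR, PT_leaves hb K hN hd hV hR p, ?_⟩
  unfold appr
  refine PT_bestc hG (PolyTime.filterMap (f := fun a R' => solve (N a) (d a) R' (F a))
    (PT_leaves hb K hN hd hV hR p) ?_)
  exact (hb (α × List Row) (fun z => N z.1) (fun z => d z.1) (fun z => i z.1) (fun z => z.2)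
    (fun z => F z.1) (by fun_prop) (by fun_prop) (by fun_prop) (by fun_prop)
    (by fun_prop)).1

end Pool.Agent.Helper85.SQ
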